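import Pool.Agent.H88.L.W476.TP.Base

/-!
# Project TP: normalisation of the solutions
-/

set_option autoImplicit false

namespace Pool.Agent.W177.TP

open MvPolynomial Pool.Agent.W476.TP

theorem norm_eval_le {C σ : Type} [NormedField C] [IsUltrametricDist C] [Fintype σ]
    {f : MvPolynomial σ C} (hf : ∀ α, ‖f.coeff α‖ ≤ 1) {y : σ → C} (hy : ∀ i, ‖y i‖ ≤ 1) :
    ‖eval y f‖ ≤ 1 := by
  rw [eval_eq']
  refine IsUltrametricDist.norm_sum_le_of_forall_le_of_nonneg zero_le_one fun α _ => ?_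
  rw [norm_mul, norm_prod]
  refine mul_le_one₀ (hf α) (Finset.prod_nonneg fun i _ => norm_nonneg _) ?_
  refine Finset.prod_le_one (fun i _ => norm_nonneg _) fun i _ => ?_
  rw [norm_pow]
  exact pow_le_one₀ (norm_nonneg _) (hy i)

theorem sh_sp {p : ℕ} {C L : Type} [NormedField C] [Field L] (S : Sharp p C L) {r : ℕ}
    (lam : Fin r → L) (D : Fin r → ℕ) : sp (fun κ => S.sh (lam κ)) D = S.sh (sp lam D) := by
  unfold sp
  rw [map_prod]
  exact Finset.prod_congr rfl fun κ _ => (map_pow _ _ _).symm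

theorem t_PT : S_PT := by
  intro p _ C L _ _ _ _ _ S hp0 hp1 r n c m D hD N hN g f hf hfc H b hH hHg G t hG hGf y z hy hyH
    hyG
  have hPN : ‖(p : C)‖ ^ N < 1 := pow_lt_one₀ (norm_nonneg _) hp1 hN.ne'
  -- the maximal coordinates
  have hmax : ∀ κ : Fin r, ∃ i : Fin (m κ + 1), ∀ j, ‖S.sh (y ⟨κ, j⟩)‖ ≤ ‖S.sh (y ⟨κ, i⟩)‖ :=
    fun κ => Finite.exists_max fun i => ‖S.sh (y ⟨κ, i⟩)‖
  choose ik hik using hmax
  have hne : ∀ κ, y ⟨κ, ik κ⟩ ≠ 0 := by
    intro κ h0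
    obtain ⟨j, hj⟩ := hy κ
    have h1 := hik κ j
    rw [h0, map_zero, norm_zero] at h1
    have h2 : S.sh (y ⟨κ, j⟩) = 0 := norm_le_zero_iff.1 h1
    exact hj ((map_eq_zero S.sh).1 h2)
  obtain ⟨lam, hlam⟩ : ∃ lam : Fin r → L, lam = fun κ => (y ⟨κ, ik κ⟩)⁻¹ := ⟨_, rfl⟩
  have hlam0 : ∀ κ, lam κ ≠ 0 := by
    intro κ
    rw [hlam]
    exact inv_ne_zero (hne κ)
  have hy'1 : ∀ i, ‖S.sh (scl lam y i)‖ ≤ 1 := by
    rintro ⟨κ, j⟩
    have h1 : 0 < ‖S.sh (y ⟨κ, ik κ⟩)‖ := by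
      rw [norm_pos_iff]
      exact fun h => hne κ ((map_eq_zero S.sh).1 h)
    have h2 : scl lam y ⟨κ, j⟩ = (y ⟨κ, ik κ⟩)⁻¹ * y ⟨κ, j⟩ := by
      unfold scl
      rw [hlam]
    rw [h2, map_mul, map_inv₀, norm_mul, norm_inv, inv_mul_le_iff₀ h1, mul_one]
    exact hik κ j
  have hnrm : Nrm fun i => S.sh (scl lam y i) := by
    refine ⟨hy'1, fun κ => ⟨ik κ, ?_⟩⟩
    have h2 : scl lam y ⟨κ, ik κ⟩ = 1 := by
      unfold scl
      rw [hlam]
      exact inv_mul_cancel₀ (hne κ)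
    simp only [h2, map_one, norm_one]
  have hH' : ∀ j, eval (scl lam y) (H j) = 0 := by
    intro j
    rw [eval_scl (hH j), hyH j, mul_zero]
  have hG' : ∀ i, ev (G i) (scl lam y) (sp lam D * z i) = 0 := by
    intro i
    rw [ev_scl (hG i), hyG i, mul_zero]
  -- the claim
  have hclaim : ∀ i, ‖S.sh (sp lam D * z i)‖ ≤ 1 := by
    intro i
    by_contra hcon
    rw [not_le] at hcon
    obtain ⟨Z, hZ⟩ : ∃ Z, Z = sp lam D * z i := ⟨_, rfl⟩
    rw [← hZ] at hcon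
    have hZ0 : Z ≠ 0 := by
      rintro rfl
      rw [map_zero, norm_zero] at hcon
      linarith
    obtain ⟨κ, hκ⟩ : ∃ κ, D κ ≠ 0 := by
      by_contra h
      push Not at h
      exact hD (funext h)
    obtain ⟨μ, hμ⟩ := IsAlgClosed.exists_pow_nat_eq Z⁻¹ (Nat.pos_of_ne_zero hκ)
    obtain ⟨lam', hlam'⟩ : ∃ lam' : Fin r → L,
      lam' = Function.update (1 : Fin r → L) κ μ := ⟨_, rfl⟩
    have hsp : sp lam' D = Z⁻¹ := by
      unfold sp
      rw [Finset.prod_eq_single κ, hlam', Function.update_self, hμ]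
      · intro κ' _ hne'
        rw [hlam', Function.update_of_ne hne', Pi.one_apply, one_pow]
      · intro h
        exact absurd (Finset.mem_univ κ) h
    have hZinv : ‖S.sh Z⁻¹‖ < 1 := by
      rw [map_inv₀, norm_inv]
      exact inv_lt_one_of_one_lt₀ hcon
    have hμ1 : ‖S.sh μ‖ ≤ 1 := by
      by_contra h
      rw [not_le] at h
      have h1 : 1 ≤ ‖S.sh μ‖ ^ D κ := one_le_pow₀ h.le
      rw [← norm_pow, ← map_pow, hμ] at h1
      linarith
    have hlam1 : ∀ κ', ‖S.sh (lam' κ')‖ ≤ 1 := by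
      intro κ'
      rw [hlam']
      by_cases h : κ' = κ
      · rw [h, Function.update_self]
        exact hμ1
      · rw [Function.update_of_ne h, Pi.one_apply, map_one, norm_one]
    have hy'' : ∀ i, ‖S.sh (scl lam' (scl lam y) i)‖ ≤ 1 := by
      intro j
      have h2 : scl lam' (scl lam y) j = lam' j.1 * scl lam y j := rfl
      rw [h2, map_mul, norm_mul]
      exact mul_le_one₀ (hlam1 _) (norm_nonneg _) (hy'1 j)
    have hev : ev (G i) (scl lam' (scl lam y)) 1 = 0 := by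
      have h2 := ev_scl (hG i) lam' (scl lam y) Z
      rw [hsp, inv_mul_cancel₀ hZ0] at h2
      rw [h2, hZ, hG' i, mul_zero]
    have h3 := hGf i _ 1 hy'' (by rw [map_one, norm_one]) hev
    rw [map_one] at h3
    have h4 : (fun i => S.sh (scl lam' (scl lam y) i)) =
        scl (fun κ => S.sh (lam' κ)) (fun i => S.sh (scl lam y i)) := by
      funext j
      exact map_mul _ _ _
    have h5 : ‖eval (fun i => S.sh (scl lam' (scl lam y) i)) (f i)‖ < 1 := by
      rw [h4, eval_scl (hf i), sh_sp, hsp, norm_mul]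
      calc ‖S.sh Z⁻¹‖ * ‖eval (fun i => S.sh (scl lam y i)) (f i)‖ ≤ ‖S.sh Z⁻¹‖ * 1 :=
            mul_le_mul_of_nonneg_left (norm_eval_le (hfc i) hy'1) (norm_nonneg _)
        _ < 1 := by rw [mul_one]; exact hZinv
    have h6 := IsUltrametricDist.norm_add_le_max
      (1 - eval (fun i => S.sh (scl lam' (scl lam y) i)) (f i))
      (eval (fun i => S.sh (scl lam' (scl lam y) i)) (f i))
    rw [sub_add_cancel, norm_one] at h6
    exact absurd h6 (not_le.2 (max_lt (h3.trans_lt hPN) h5))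
  exact ⟨sp lam D, scl lam y, sp_ne_zero hlam0 D, hnrm, hclaim,
    fun j => hHg j _ hy'1 (hH' j), fun i => hGf i _ _ hy'1 (hclaim i) (hG' i)⟩

end Pool.Agent.W177.TP
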